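import Pool.Agent.KVP88.Cubes

/-!
# Many orthogonal Knut Vik designs when primes are repeated in the order

For every `n` coprime to 6 there are `N` pairwise orthogonal Knut Vik designs of order `n` as soon
as each prime factor `q` of `n` satisfies `N ≤ q - 3`, or occurs to an even power and satisfies
`N ≤ 2 q - 3`, or occurs to a power other than 1 and satisfies `N ≤ 2 q - 6`.
-/

namespace Pool.Agent.Results.MP_4d47e8_co.RepeatedPrimes

open Pool.Agent.KVP88

/-- `L` is a Knut Vik design of order `n`: all rows, all columns and all broken diagonals in both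
directions have pairwise distinct entries (symbols from the `n`-element set `Fin n`). -/
def IsKnutVik {n : ℕ} (L : ZMod n → ZMod n → Fin n) : Prop :=
  (∀ i, Function.Injective fun j => L i j) ∧
  (∀ j, Function.Injective fun i => L i j) ∧
  (∀ i j, Function.Injective fun r => L (i + r) (j + r)) ∧
  (∀ i j, Function.Injective fun r => L (i + r) (j - r))

/-- Two arrays of order `n` are orthogonal: all ordered pairs of entries are distinct. -/
def Orthogonal {n : ℕ} (L M : ZMod n → ZMod n → Fin n) : Prop :=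
  Function.Injective fun c : ZMod n × ZMod n => (L c.1 c.2, M c.1 c.2)

theorem final {n k : ℕ} (h : KV n k) :
    ∃ L : Fin k → ZMod n → ZMod n → Fin n, (∀ a, IsKnutVik (L a)) ∧
      ∀ a b, a ≠ b → Orthogonal (L a) (L b) := by
  obtain ⟨S, _, hS, L, h1, h2, h3, h4, h5⟩ := h
  let e : S ≃ Fin n := Fintype.equivFinOfCardEq hS
  refine ⟨fun a u v => e (L a u v), fun a => ⟨?_, ?_, ?_, ?_⟩, ?_⟩
  · intro i j j' hj
    exact h1 a i j j' (e.injective hj)
  · intro j i i' hi
    exact h2 a i i' j (e.injective hi)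
  · intro i j r r' hr
    have := h3 a _ _ _ _ (e.injective hr) (by ring)
    exact add_left_cancel this
  · intro i j r r' hr
    have := h4 a _ _ _ _ (e.injective hr) (by ring)
    exact add_left_cancel this
  · intro a b hab c c' hc
    have hc' := Prod.ext_iff.mp hc
    have := h5 a b hab c.1 c.2 c'.1 c'.2 (e.injective hc'.1) (e.injective hc'.2)
    exact Prod.ext this.1 this.2

/-- Orders that are prime powers. -/
theorem primePow {p k N : ℕ} (hp : p.Prime) (hp5 : 5 ≤ p) (hk : 0 < k)
    (h : N + 3 ≤ p ∨ (Even k ∧ N + 3 ≤ 2 * p) ∨ (k ≠ 1 ∧ N + 6 ≤ 2 * p)) : KV (p ^ k) N := by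
  have hn : Nice p := ⟨hp, hp5⟩
  have even : ∀ r : ℕ, N + 3 ≤ 2 * p → KV ((p * p) ^ r) N := fun r h' =>
    KV.pow (Nat.mul_pos hp.pos hp.pos) (KV.square hn h') r
  rcases h with h | ⟨hk2, h⟩ | ⟨hk1, h⟩
  · exact KV.pow hp.pos (KV.prime hp h) k
  · obtain ⟨r, hr⟩ := hk2
    have := even r h
    have e : p ^ k = (p * p) ^ r := by rw [hr, ← pow_two, ← pow_mul]; congr 1; omega
    rw [e]
    exact this
  · rcases Nat.even_or_odd' k with ⟨r, hr | hr⟩
    · have := even r (by omega)
      have e : p ^ k = (p * p) ^ r := by rw [hr, ← pow_two, ← pow_mul]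
      rw [e]
      exact this
    · obtain ⟨s, hs⟩ : ∃ s, r = s + 1 := ⟨r - 1, by omega⟩
      have e : p ^ k = (p * (p * p)) * (p * p) ^ s := by
        rw [hr, hs, ← pow_two, ← pow_mul, ← pow_succ', ← pow_add]
        congr 1
        omega
      rw [e]
      exact KV.mul (Nat.mul_pos hp.pos (Nat.mul_pos hp.pos hp.pos))
        (pow_pos (Nat.mul_pos hp.pos hp.pos) s) (KV.cube hn h) (even s (by omega))

theorem main (N : ℕ) : ∀ n : ℕ, Nat.Coprime n 6 →
    (∀ q : ℕ, q.Prime → q ∣ n → N + 3 ≤ q ∨ (Even (padicValNat q n) ∧ N + 3 ≤ 2 * q) ∨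
      (padicValNat q n ≠ 1 ∧ N + 6 ≤ 2 * q)) → KV n N := by
  intro n
  induction n using Nat.recOnPosPrimePosCoprime with
  | zero => intro h _; norm_num at h
  | one => intro _ _; exact KV.one N
  | prime_pow p k hp hk =>
    intro hc h
    have : Fact p.Prime := ⟨hp⟩
    have hpc : Nat.Coprime p 6 := Nat.Coprime.coprime_dvd_left (dvd_pow_self p hk.ne') hc
    have hp5 : 5 ≤ p := by
      by_contra h5
      have h2 := hp.two_le
      have : p = 2 ∨ p = 3 ∨ p = 4 := by omega
      rcases this with rfl | rfl | rfl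
      · norm_num at hpc
      · norm_num at hpc
      · norm_num at hp
    have := h p hp (dvd_pow_self p hk.ne')
    rw [padicValNat.prime_pow] at this
    exact primePow hp hp5 hk this
  | coprime a b ha hb hab iha ihb =>
    intro hc h
    have ha0 : a ≠ 0 := by omega
    have hb0 : b ≠ 0 := by omega
    apply KV.mul (by omega) (by omega)
    · apply iha (Nat.Coprime.coprime_dvd_left (dvd_mul_right a b) hc)
      intro q hq hqa
      have : Fact q.Prime := ⟨hq⟩
      have hqb : ¬ q ∣ b := fun hqb => by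
        have := Nat.dvd_gcd hqa hqb
        rw [Nat.Coprime.gcd_eq_one hab] at this
        exact hq.one_lt.ne' (Nat.dvd_one.mp this)
      have := h q hq (hqa.mul_right b)
      rwa [padicValNat.mul ha0 hb0, padicValNat.eq_zero_of_not_dvd hqb, add_zero] at this
    · apply ihb (Nat.Coprime.coprime_dvd_left (dvd_mul_left b a) hc)
      intro q hq hqb
      have : Fact q.Prime := ⟨hq⟩
      have hqa : ¬ q ∣ a := fun hqa => by
        have := Nat.dvd_gcd hqa hqb
        rw [Nat.Coprime.gcd_eq_one hab] at this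
        exact hq.one_lt.ne' (Nat.dvd_one.mp this)
      have := h q hq (hqb.mul_left a)
      rwa [padicValNat.mul ha0 hb0, padicValNat.eq_zero_of_not_dvd hqa, zero_add] at this

/-- Let `n` be coprime to 6 and let `N` be such that every prime factor `q` of `n` satisfies
`N ≤ q - 3`, or occurs in `n` to an even power and satisfies `N ≤ 2 q - 3`, or occurs in `n` to a
power other than the first and satisfies `N ≤ 2 q - 6`. Then there are `N` pairwise orthogonal
Knut Vik designs of order `n`. -/
theorem result (n N : ℕ) (hn : Nat.Coprime n 6)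
    (h : ∀ q : ℕ, q.Prime → q ∣ n → N + 3 ≤ q ∨ (Even (padicValNat q n) ∧ N + 3 ≤ 2 * q) ∨
      (padicValNat q n ≠ 1 ∧ N + 6 ≤ 2 * q)) :
    ∃ L : Fin N → ZMod n → ZMod n → Fin n,
      (∀ i, IsKnutVik (L i)) ∧ ∀ i j, i ≠ j → Orthogonal (L i) (L j) :=
  final (main N n hn h)

end Pool.Agent.Results.MP_4d47e8_co.RepeatedPrimes
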